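import Pool.Agent.Helper76.TB.Goals2
import Pool.Agent.Helper32.BFT.FU
import Pool.Agent.Helper35.TB.LOCAL
import Pool.Agent.Helper12.TB.INV
import Pool.Agent.Helper90.TwinR

/-!
# Project TB (MP_74f661_nt), packet U-CORR2: the averaged correlations, relative error
-/

set_option autoImplicit false

open Finset

namespace Pool.Agent.Helper14.TB

open Pool.Agent.Helper90.Twin (Ps Gz Sz XX yy Xz avgI SieveSys cc mem_Ps Adm nu wI wI_prod wI_mean
  EE EE_le sv_rec Sv sg_le sg_nonneg card_Ps_le iterate_sqrt_pow_le)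
open Pool.Agent.Helper60.BFT (XA yA Av lg Av_sum)
open Pool.Agent.Helper76.TB

/-- the fundamental lemma for one system of weights -/
theorem core {r J k m M : ℕ} (hk : 1 ≤ k) (hm : Odd m) (hM : Odd M)
    (hb : 4 * k + 2 ≤ Nat.sqrt^[J] r) (hσ : sgm k M ≤ 1 / 2) {w : ℕ → ℕ → ℝ}
    (hw : Adm w (2 * (k : ℝ))) (N : ℕ) :
    |∑ t ∈ range N, ∏ p ∈ Ps r, (1 - w p t) - N * ∏ p ∈ Ps r, (1 - nu w p / (p : ℝ))|
      ≤ 2 * sgm k M * (N * ∏ p ∈ Ps r, (1 - nu w p / (p : ℝ)))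
        + errU r (Nat.sqrt^[J] r) k m M N := by
  set b := Nat.sqrt^[J] r with hbdef
  have hk1 : (1 : ℝ) ≤ k := by exact_mod_cast hk
  have hr0 : ∀ p ∈ Ps b, 0 ≤ nu w p / (p : ℝ) := by
    intro p hp
    have h5 := mem_Ps.1 hp
    exact div_nonneg (Finset.sum_nonneg fun x _ => hw.nonneg p h5.2.2 h5.1 x) (Nat.cast_nonneg _)
  have hSz : 0 ≤ Sz b := Finset.sum_nonneg fun p _ => by positivity
  have hE : EE (Ps b) (fun p => nu w p / p) m ≤ (2 * k * Sz b) ^ m / (m.factorial : ℝ) := by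
    refine (EE_le hr0 m).trans ?_
    apply div_le_div_of_nonneg_right _ (by positivity)
    refine pow_le_pow_left₀ (Finset.sum_nonneg hr0) ?_ m
    unfold Sz
    rw [Finset.mul_sum]
    refine Finset.sum_le_sum fun p hp => ?_
    have h5 := mem_Ps.1 hp
    rw [mul_one_div]
    exact div_le_div_of_nonneg_right (hw.nu_le p h5.2.2 h5.1) (Nat.cast_nonneg _)
  have he0 : 0 ≤ (2 * k * Sz b) ^ m / (m.factorial : ℝ) := by positivity
  have hbR : 2 * (2 * (k : ℝ)) + 2 ≤ ((b : ℕ) : ℝ) := by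
    have : ((4 * k + 2 : ℕ) : ℝ) ≤ (b : ℝ) := by exact_mod_cast hb
    push_cast at this
    linarith
  have hsv := sv_rec (w := w) (κ := 2 * (k : ℝ)) (by linarith) hw.nonneg hw.le_one hw.per hw.nu_le
    hm he0 J r M hM hbR hE
  have hW : 0 ≤ ∏ p ∈ Ps r, (1 - nu w p / (p : ℝ)) := by
    refine Finset.prod_nonneg fun p hp => ?_
    have h5 := mem_Ps.1 hp
    have := hw.frac_le h5.2.2 h5.1
    linarith
  have hsg : Pool.Agent.Helper90.Twin.sg (2 * (k : ℝ)) J M ≤ sgm k M := by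
    refine (sg_le (by linarith) J M).trans (le_of_eq ?_)
    unfold sgm
    rw [← Real.exp_add]
    congr 2
    · ring
    · ring
  have hsg0 := sg_nonneg (κ := 2 * (k : ℝ)) (by linarith) J M
  have hΛ : 0 ≤ (1 + 2 * (k : ℝ) * ((Ps b).card : ℝ)) ^ m * (r : ℝ) ^ (4 * M + 8) := by positivity
  have hfin := hsv.final hW he0 hsg0 (hsg.trans hσ) hΛ N
  refine hfin.trans ?_
  have hN : (0 : ℝ) ≤ N := Nat.cast_nonneg _
  have h1 : 2 * Pool.Agent.Helper90.Twin.sg (2 * (k : ℝ)) J M *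
      (N * ∏ p ∈ Ps r, (1 - nu w p / (p : ℝ))) ≤
      2 * sgm k M * (N * ∏ p ∈ Ps r, (1 - nu w p / (p : ℝ))) :=
    mul_le_mul_of_nonneg_right (by linarith) (by positivity)
  refine add_le_add h1 ?_
  unfold errU
  refine add_le_add le_rfl ?_
  -- the number of steps
  have hJr : J + 2 ≤ r := by
    have a1 : J + 1 ≤ 2 ^ J := Nat.lt_two_pow_self
    have a2 : 2 ^ J + 1 ≤ 2 ^ (2 ^ J) := Nat.lt_two_pow_self
    have a3 : 2 ^ (2 ^ J) ≤ b ^ (2 ^ J) := Nat.pow_le_pow_left (by omega) _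
    have a4 := iterate_sqrt_pow_le J r
    rw [← hbdef] at a4
    omega
  have hJR : (J : ℝ) + 2 ≤ r := by exact_mod_cast hJr
  have hcard : (1 + 2 * (k : ℝ) * ((Ps b).card : ℝ)) ^ m ≤ (1 + 2 * (k : ℝ) * (b : ℝ)) ^ m := by
    refine pow_le_pow_left₀ (by positivity) ?_ m
    have := card_Ps_le b
    have h2 : 2 * (k : ℝ) * ((Ps b).card : ℝ) ≤ 2 * (k : ℝ) * (b : ℝ) :=
      mul_le_mul_of_nonneg_left this (by positivity)
    linarith
  calc ((J : ℝ) + 2) * ((1 + 2 * (k : ℝ) * ((Ps b).card : ℝ)) ^ m * (r : ℝ) ^ (4 * M + 8))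
      ≤ (r : ℝ) * ((1 + 2 * (k : ℝ) * (b : ℝ)) ^ m * (r : ℝ) ^ (4 * M + 8)) := by
        refine mul_le_mul hJR (mul_le_mul_of_nonneg_right hcard (by positivity)) hΛ (by positivity)
    _ = (1 + 2 * (k : ℝ) * (b : ℝ)) ^ m * (r : ℝ) ^ (4 * M + 9) := by
        rw [show 4 * M + 9 = (4 * M + 8) + 1 by ring, pow_succ]
        ring

theorem errU_nonneg (r b k m M N : ℕ) : 0 ≤ errU r b k m M N := by
  unfold errU
  have hSz : 0 ≤ Sz b := Finset.sum_nonneg fun p _ => by positivity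
  positivity

/-- no separation -/
theorem mean0 (A : ℕ → ℕ) (r : ℕ) (I : Finset ℕ) :
    ∏ p ∈ Ps r, (1 - nu (wI (yA A) I) p / (p : ℝ)) = avgI (Ps r) (yA A) I := by
  have hs : SieveSys (Ps r ∪ ∅) (yA A) := by
    rw [Finset.union_empty]
    exact Pool.Agent.Helper32.BFT.sieveSysA A r
  have h := wI_mean hs (Finset.disjoint_empty_right _) (H := I.sup id)
    (by simp) (I := I) (fun i hi => Finset.le_sup (f := id) hi)
  simp only [Finset.union_empty, cc, Finset.prod_empty, one_mul] at h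
  exact h

/-- multiplication by a factor in `[0, 1]` -/
theorem scale {a S N W σ E : ℝ} (h0 : 0 ≤ a) (h1 : a ≤ 1) (hE : 0 ≤ E)
    (h : |S - N * W| ≤ 2 * σ * (N * W) + E) :
    |a * S - N * (a * W)| ≤ 2 * σ * (N * (a * W)) + E := by
  have e : a * S - N * (a * W) = a * (S - N * W) := by ring
  rw [e, abs_mul, abs_of_nonneg h0]
  have h2 := mul_le_mul_of_nonneg_left h h0
  have h3 : a * E ≤ 1 * E := mul_le_mul_of_nonneg_right h1 hE
  nlinarith

/-- packet U-CORR2 -/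
theorem corr2 : CORR2G := by
  obtain ⟨i1, i2, i3, i4⟩ := Pool.Agent.Helper12.TB.inv
  have h1 := Pool.Agent.Helper35.TB.loc
  intro r Z J k m M N hrZ hk hm hM hb hσ
  refine ⟨?_, ?_⟩
  · intro I hI A
    rw [Av_sum]
    have e1 : ∑ t ∈ range N, Av (lg r Z) (fun B => ∏ i ∈ I, XA Z B (t + i)) A =
        avgI (Ps Z \ Ps r) yy I * ∑ t ∈ range N, ∏ i ∈ I, XA r A (t + i) := by
      rw [Finset.mul_sum]
      exact Finset.sum_congr rfl fun t _ => h1 r Z hrZ I t A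
    rw [e1, ← i2 r Z hrZ I, ← i1 r A I]
    obtain ⟨h0, hle⟩ := i3 r Z I
    refine scale h0 hle (errU_nonneg _ _ _ _ _ _) ?_
    have hadm : Adm (wI (yA A) I) (2 * (k : ℝ)) :=
      (Pool.Agent.Helper32.BFT.wI_admA A).mono (by
        have : (I.card : ℝ) ≤ k := by exact_mod_cast hI
        linarith)
    have h3 := core hk hm hM hb hσ hadm N
    rw [mean0] at h3
    simp only [wI_prod] at h3
    exact h3
  · intro A
    rw [Av_sum]
    have e0 : ∀ t, Av (lg r Z) (fun B => XA Z B (2 * t)) A =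
        avgI (Ps Z \ Ps r) yy {0} * XA r A (2 * t) := by
      intro t
      have := h1 r Z hrZ {0} (2 * t) A
      simpa using this
    have e1 : ∑ t ∈ range N, Av (lg r Z) (fun B => XA Z B (2 * t)) A =
        avgI (Ps Z \ Ps r) yy {0} * ∑ t ∈ range N, XA r A (2 * t) := by
      rw [Finset.mul_sum]
      exact Finset.sum_congr rfl fun t _ => e0 t
    rw [e1, ← i4 Z, ← i2 r Z hrZ {0}, i4 r]
    obtain ⟨h0, hle⟩ := i3 r Z {0}
    refine scale h0 hle (errU_nonneg _ _ _ _ _ _) ?_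
    have hk1 : (1 : ℝ) ≤ k := by exact_mod_cast hk
    have hadm : Adm (fun p t => yA A p (2 * t)) (2 * (k : ℝ)) :=
      (Pool.Agent.Helper32.BFT.adm_yA2 A).mono (by linarith)
    have h3 := core hk hm hM hb hσ hadm N
    rw [Pool.Agent.Helper32.BFT.mean_yA2] at h3
    exact h3

end Pool.Agent.Helper14.TB
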