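import Pool.Agent.Helper76.TB.GoalsT
import Pool.Agent.Helper84.CR.MERT

/-!
# Project TB (MP_74f661_nt), packet CUTB: the Banks-Ford-Tao cutoff
-/

set_option autoImplicit false

open Finset Filter Topology

namespace Pool.Agent.Helper14.TB

open Pool.Agent.Helper48.CR Pool.Agent.Helper84.CR

theorem cutb : Pool.Agent.Helper76.TB.CUTBG := by
  intro Z hZ
  have hVe : ∀ z : ℕ, V z = ∏ p ∈ (range (z + 1)).filter Nat.Prime, (1 - 1 / (p : ℝ)) := by
    intro z
    unfold V
    refine Finset.prod_congr ?_ fun _ _ => rfl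
    ext p
    simp only [pr, mem_filter, mem_Ioc, mem_range]
    constructor
    · rintro ⟨⟨h1, h2⟩, h3⟩
      exact ⟨by omega, h3⟩
    · rintro ⟨h1, h2⟩
      exact ⟨⟨h2.pos, by omega⟩, h2⟩
  have hZ' : Tendsto (fun n : ℕ => V (Z n) * Real.log n) atTop (𝓝 1) := by
    simpa only [hVe] using hZ
  have hlog : Tendsto (fun n : ℕ => Real.log (n : ℝ)) atTop atTop :=
    Real.tendsto_log_atTop.comp tendsto_natCast_atTop_atTop
  have hV0 : Tendsto (fun n : ℕ => V (Z n)) atTop (𝓝 0) := by
    have h := hZ'.mul hlog.inv_tendsto_atTop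
    rw [one_mul] at h
    refine h.congr' ?_
    filter_upwards [hlog.eventually_gt_atTop 0] with n hn
    simp only [Pi.inv_apply]
    field_simp
  have hZi : Tendsto Z atTop atTop := by
    rw [tendsto_atTop]
    intro M
    have h := hV0.eventually (gt_mem_nhds (V_pos M))
    filter_upwards [h] with n hn
    by_contra hc
    push Not at hc
    have := V_anti hc.le
    linarith
  have h1 : Tendsto (fun n : ℕ => V (Z n) * Real.log (Z n)) atTop
      (𝓝 (Real.exp (-Real.eulerMascheroniConstant))) := V_log.comp hZi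
  have h2 := h1.div hZ' one_ne_zero
  rw [div_one] at h2
  refine h2.congr' ?_
  filter_upwards [hlog.eventually_gt_atTop 0] with n hn
  have hv := V_pos (Z n)
  simp only [Pi.div_apply]
  rw [mul_div_mul_left _ _ hv.ne']

end Pool.Agent.Helper14.TB
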