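import Pool.Agent.Helper22.TB.Goals

/-!
# Project TB (MP_74f661_nt), packet GZU: upper bound of the density
-/

set_option autoImplicit false

open Finset Filter Topology
open Pool.Agent.Helper90.Twin (Ps Gz)
open scoped Classical
open Pool.Agent.Helper22.TB

namespace Pool.Agent.Helper14.TB

theorem gGZU : G_GZU := by
  intro hMP
  obtain ⟨C, hC, h⟩ := hMP.2.2
  refine ⟨C ^ 2, by positivity, fun L hL => ?_⟩
  have hp : ∀ p ∈ Ps L, (5 : ℝ) ≤ p := by
    intro p hp
    exact_mod_cast (Pool.Agent.Helper90.Twin.mem_Ps.1 hp).1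
  have hlog : 0 < Real.log L := Real.log_pos (by exact_mod_cast (by omega : 1 < L))
  have h1 : Gz L ≤ (∏ p ∈ Ps L, (1 - 1 / (p : ℝ))) ^ 2 := by
    rw [Gz, Pool.Agent.Helper90.Twin.GG, ← Finset.prod_pow]
    refine Finset.prod_le_prod (fun p hp' => ?_) (fun p hp' => ?_)
    · have := hp p hp'
      have h2 : 2 / (p : ℝ) ≤ 1 := by
        rw [div_le_one (by linarith)]; linarith
      linarith
    · have h3 : (1 - 1 / (p : ℝ)) ^ 2 = 1 - 2 / (p : ℝ) + (1 / (p : ℝ)) ^ 2 := by ring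
      rw [h3]
      have : 0 ≤ (1 / (p : ℝ)) ^ 2 := by positivity
      linarith
  have h0 : 0 ≤ ∏ p ∈ Ps L, (1 - 1 / (p : ℝ)) := by
    refine Finset.prod_nonneg fun p hp' => ?_
    have := hp p hp'
    have h2 : 1 / (p : ℝ) ≤ 1 := by
      rw [div_le_one (by linarith)]; linarith
    linarith
  have h4 := pow_le_pow_left₀ h0 (h L hL) 2
  refine h1.trans (h4.trans (le_of_eq ?_))
  rw [div_pow]

end Pool.Agent.Helper14.TB
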